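import Pool.Agent.KS6_9.SR.Cmp
import Pool.Agent.KS6_9.SR.SLs

set_option autoImplicit false

namespace Pool.Agent.Results.MP_bac815_al.EveryLattice

open Pool.Agent.KS6_9.SR Matrix

/-- Superrigidity without reducedness fails for `G = SL(3,ℝ)`, which has cocompact lattices (so the
answer to Q1 is negative, in case (b)), and it fails for every cocompact lattice, irreducible or not,
of every finite product of noncompact simple linear Lie groups, among them all the groups `SL(n,K)`,
`n ≥ 2`, `K = ℝ` or `ℂ`. -/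
theorem result :
    (∃ Γ : Subgroup (SpecialLinearGroup (Fin 3) ℝ), IsCocompactLattice Γ) ∧
    RigidityFailsForAll (SpecialLinearGroup (Fin 3) ℝ) ∧
    (∀ (n : ℕ) (K : Type) [RCLike K], 2 ≤ n → IsSimpleLinearLieGroup (SpecialLinearGroup (Fin n) K)) ∧
    ∀ (r : ℕ), 1 ≤ r → ∀ (G : Fin r → Type) [∀ i, Group (G i)] [∀ i, TopologicalSpace (G i)]
      [∀ i, IsTopologicalGroup (G i)], (∀ i, IsSimpleLinearLieGroup (G i)) →
      RigidityFailsForAll (∀ i, G i) := by
  refine ⟨exists_lattice3, fun Γ hΓ => sl_case (by norm_num) Γ hΓ, ?_, ?_⟩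
  · intro n K _ hn
    exact SL_isSimple hn
  · intro r hr G _ _ _ hG Γ hΓ
    exact simple_products hr G hG Γ hΓ

end Pool.Agent.Results.MP_bac815_al.EveryLattice
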