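import Pool.Agent.KS6_9.SR.Sl

set_option autoImplicit false

namespace Pool.Agent.Results.MP_bac815_al.GeneralLattices

open Pool.Agent.KS6_9.SR Matrix

/-- Superrigidity without reducedness fails for a cocompact lattice `Γ` of a second countable,
compactly generated, locally compact group `G` in which the closed subgroup generated by the
contraction groups has finite index, whenever `Γ` surjects onto an infinite residually finite group
which acts properly and coboundedly by isometries on some CAT(0) space. -/
theorem result (G : Type) [Group G] [TopologicalSpace G] [IsTopologicalGroup G] [T2Space G]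
    [LocallyCompactSpace G] [SecondCountableTopology G] (hG : IsCompactlyGenerated G)
    (hd : (dagger G).FiniteIndex) (Γ : Subgroup G) (hΓ : IsCocompactLattice Γ)
    (Q : Type) [Group Q] [Infinite Q] (hQ : Group.ResiduallyFinite Q) (q : Γ →* Q)
    (hq : Function.Surjective q) (T : Type) [MetricSpace T] (hT : IsCAT0 T) (τ : Q → T → T)
    (hτ : IsIsometricAction τ) (t : T) (hprop : ∀ R : ℝ, {g : Q | dist t (τ g t) ≤ R}.Finite)
    (hcob : ∃ D : ℝ, ∀ x : T, ∃ g : Q, dist x (τ g t) ≤ D) : RigidityFails Γ := by
  obtain ⟨D, hD⟩ := hcob
  exact general hG hd Γ hΓ Q hQ q hq T hT τ hτ t hprop D hD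

end Pool.Agent.Results.MP_bac815_al.GeneralLattices
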